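import Mathlib

/-!
# Proper dense SSP and selectively pseudocompact subgroups of groups with `w(G)^ω < |G|`
-/

set_option autoImplicit false

open Set Topology Filter TopologicalSpace

namespace Pool.Agent.Results.MP_750e22_gt.LargeGroups

universe u

/-- selectively sequentially pseudocompact -/
def SSP (X : Type u) [TopologicalSpace X] : Prop :=
  ∀ U : ℕ → Set X, (∀ n, IsOpen (U n) ∧ (U n).Nonempty) → ∃ x : ℕ → X, (∀ n, x n ∈ U n) ∧
    ∃ (φ : ℕ → ℕ) (y : X), StrictMono φ ∧ Tendsto (x ∘ φ) atTop (𝓝 y)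

/-- selectively pseudocompact -/
def SP (X : Type u) [TopologicalSpace X] : Prop :=
  ∀ U : ℕ → Set X, (∀ n, IsOpen (U n) ∧ (U n).Nonempty) → ∃ (y : X) (x : ℕ → X), (∀ n, x n ∈ U n) ∧
    ∀ W : Set X, IsOpen W → y ∈ W → {n | x n ∈ W}.Infinite

variable {G : Type u} [AddCommGroup G] [TopologicalSpace G] [IsTopologicalAddGroup G]

open Cardinal in
/-- a general closing-off argument -/
theorem closing_off {B : Set (Set G)} (hinf : ℵ₀ ≤ #B) (hcard : #B ^ ℵ₀ < #G)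
    (x : (ℕ → B) → ℕ → G) (y : (ℕ → B) → G) :
    ∃ H : AddSubgroup G, H ≠ ⊤ ∧ #H ≤ #B ^ ℵ₀ ∧ ∀ s, y s ∈ H ∧ ∀ n, x s n ∈ H := by
  classical
  let f : (ℕ → B) × Option ℕ → G := fun i => match i.2 with
    | none => y i.1
    | some n => x i.1 n
  let L := (Finsupp.linearCombination ℤ f)
  have hI : #((ℕ → B) × Option ℕ) ≤ #B ^ ℵ₀ := by
    have h1 : ℵ₀ ≤ #B ^ ℵ₀ := hinf.trans (Cardinal.self_le_power _ Cardinal.one_le_aleph0)
    have h2 : Cardinal.lift.{u} #(Option ℕ) = ℵ₀ := by simp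
    rw [Cardinal.mk_prod, h2, Cardinal.mk_arrow]
    simp only [Cardinal.lift_uzero, Cardinal.mk_nat, Cardinal.lift_aleph0]
    exact (Cardinal.mul_eq_left h1 h1 Cardinal.aleph0_ne_zero).le
  have hH : #L.toAddMonoidHom.range ≤ #B ^ ℵ₀ := by
    have h0 : ℵ₀ ≤ #B ^ ℵ₀ := hinf.trans (Cardinal.self_le_power _ Cardinal.one_le_aleph0)
    have h1 : #L.toAddMonoidHom.range ≤ #(((ℕ → B) × Option ℕ) →₀ ℤ) :=
      Cardinal.mk_le_of_surjective L.toAddMonoidHom.rangeRestrict_surjective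
    refine h1.trans ?_
    have : Nonempty B := by
      by_contra hcon
      rw [not_nonempty_iff] at hcon
      rw [Cardinal.mk_eq_zero] at hinf
      exact absurd hinf (by simp [Cardinal.aleph0_ne_zero])
    rw [Cardinal.mk_finsupp_lift_of_infinite']
    simp only [Cardinal.mk_int, Cardinal.lift_aleph0, Cardinal.lift_uzero]
    exact max_le hI h0
  refine ⟨L.toAddMonoidHom.range, ?_, hH, ?_⟩
  · intro htop
    rw [htop] at hH
    have h2 : #(⊤ : AddSubgroup G) = #G := Cardinal.mk_congr (Equiv.Set.univ G)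
    rw [h2] at hH
    exact absurd hcard hH.not_gt
  · intro s
    refine ⟨⟨Finsupp.single (s, none) 1, ?_⟩, fun n => ⟨Finsupp.single (s, some n) 1, ?_⟩⟩
    · change Finsupp.linearCombination ℤ f (Finsupp.single (s, none) 1) = y s
      rw [Finsupp.linearCombination_single, one_smul]
    · change Finsupp.linearCombination ℤ f (Finsupp.single (s, some n) 1) = x s n
      rw [Finsupp.linearCombination_single, one_smul]

/-- choosing basic open sets -/
theorem refine_basic {B : Set (Set G)} (hB : IsTopologicalBasis B) (H : AddSubgroup G)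
    {U : ℕ → Set H} (hU : ∀ n, IsOpen (U n) ∧ (U n).Nonempty) :
    ∃ s : ℕ → B, (∀ n, (s n : Set G).Nonempty) ∧ ∀ n (g : G) (hg : g ∈ H), g ∈ (s n : Set G) →
      (⟨g, hg⟩ : H) ∈ U n := by
  have h : ∀ n, ∃ b : B, (b : Set G).Nonempty ∧ ∀ (g : G) (hg : g ∈ H), g ∈ (b : Set G) →
      (⟨g, hg⟩ : H) ∈ U n := by
    intro n
    obtain ⟨O, hO, hOU⟩ := isOpen_induced_iff.1 (hU n).1
    obtain ⟨a, ha⟩ := (hU n).2
    rw [← hOU] at ha
    obtain ⟨b, hb, hab, hbO⟩ := hB.exists_subset_of_mem_open (show (a : G) ∈ O from ha) hO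
    refine ⟨⟨b, hb⟩, ⟨a, hab⟩, fun g hg hgb => ?_⟩
    rw [← hOU]
    exact hbO hgb
  choose s hs1 hs2 using h
  exact ⟨s, hs1, hs2⟩

open Cardinal in
/-- If `w(G)^ω < |G|`, then an SSP (selectively pseudocompact) abelian group has a proper dense SSP
(selectively pseudocompact) subgroup, of size at most `w(G)^ω`. -/
theorem result [T2Space G] {B : Set (Set G)} (hB : IsTopologicalBasis B) (hinf : ℵ₀ ≤ #B)
    (hcard : #B ^ ℵ₀ < #G) :
    (SSP G → ∃ H : AddSubgroup G, H ≠ ⊤ ∧ Dense (H : Set G) ∧ #H ≤ #B ^ ℵ₀ ∧ SSP H) ∧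
    (SP G → ∃ H : AddSubgroup G, H ≠ ⊤ ∧ Dense (H : Set G) ∧ #H ≤ #B ^ ℵ₀ ∧ SP H) := by
  classical
  constructor
  · intro hG
    have h1 : ∀ s : ℕ → B, ∃ (x : ℕ → G) (y : G), (∀ n, (s n : Set G).Nonempty) →
        (∀ n, x n ∈ (s n : Set G)) ∧ ∃ φ : ℕ → ℕ, StrictMono φ ∧ Tendsto (x ∘ φ) atTop (𝓝 y) := by
      intro s
      by_cases hs : ∀ n, (s n : Set G).Nonempty
      · obtain ⟨x, hx, φ, y, hφ, hlim⟩ := hG (fun n => s n) fun n => ⟨hB.isOpen (s n).2, hs n⟩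
        exact ⟨x, y, fun _ => ⟨hx, φ, hφ, hlim⟩⟩
      · exact ⟨0, 0, fun h => (hs h).elim⟩
    choose x y hxy using h1
    obtain ⟨H, hH1, hH2, hH3⟩ := closing_off hinf hcard x y
    refine ⟨H, hH1, ?_, hH2, ?_⟩
    · rw [hB.dense_iff]
      intro o ho hone
      have h2 := (hxy (fun _ => ⟨o, ho⟩) fun _ => hone).1 0
      exact ⟨_, h2, (hH3 _).2 0⟩
    · intro U hU
      obtain ⟨s, hs1, hs2⟩ := refine_basic hB H hU
      obtain ⟨hx, φ, hφ, hlim⟩ := hxy s hs1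
      refine ⟨fun n => ⟨x s n, (hH3 s).2 n⟩, fun n => hs2 n _ _ (hx n), φ,
        ⟨y s, (hH3 s).1⟩, hφ, ?_⟩
      rw [tendsto_subtype_rng]
      exact hlim
  · intro hG
    have h1 : ∀ s : ℕ → B, ∃ (x : ℕ → G) (y : G), (∀ n, (s n : Set G).Nonempty) →
        (∀ n, x n ∈ (s n : Set G)) ∧ ∀ W : Set G, IsOpen W → y ∈ W → {n | x n ∈ W}.Infinite := by
      intro s
      by_cases hs : ∀ n, (s n : Set G).Nonempty
      · obtain ⟨y, x, hx, hy⟩ := hG (fun n => s n) fun n => ⟨hB.isOpen (s n).2, hs n⟩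
        exact ⟨x, y, fun _ => ⟨hx, hy⟩⟩
      · exact ⟨0, 0, fun h => (hs h).elim⟩
    choose x y hxy using h1
    obtain ⟨H, hH1, hH2, hH3⟩ := closing_off hinf hcard x y
    refine ⟨H, hH1, ?_, hH2, ?_⟩
    · rw [hB.dense_iff]
      intro o ho hone
      have h2 := (hxy (fun _ => ⟨o, ho⟩) fun _ => hone).1 0
      exact ⟨_, h2, (hH3 _).2 0⟩
    · intro U hU
      obtain ⟨s, hs1, hs2⟩ := refine_basic hB H hU
      obtain ⟨hx, hy⟩ := hxy s hs1
      refine ⟨⟨y s, (hH3 s).1⟩, fun n => ⟨x s n, (hH3 s).2 n⟩, fun n => hs2 n _ _ (hx n), ?_⟩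
      intro W hW hyW
      obtain ⟨O, hO, rfl⟩ := isOpen_induced_iff.1 hW
      exact hy O hO hyW

end Pool.Agent.Results.MP_750e22_gt.LargeGroups
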